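import Mathlib

set_option autoImplicit false

/-! The pattern lemma: a random graph over a cube of side `M` meets every line in a logarithmic
number of cells. -/

namespace Pool.Agent.R813.TB

open Finset

theorem moment {X : Type*} [Fintype X] [DecidableEq X] (M : ℕ) (hM : 0 < M)
    (B : X → Finset (Fin M)) (q : ℕ) (hq : ∑ c, (B c).card ≤ q * M) :
    ∑ r : X → Fin M, 2 ^ (univ.filter (fun c => r c ∈ B c)).card ≤
      M ^ Fintype.card X * 3 ^ q := by
  have h1 : ∀ r : X → Fin M, 2 ^ (univ.filter (fun c => r c ∈ B c)).card =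
      ∏ c, (if r c ∈ B c then 2 else 1) := by
    intro r
    rw [prod_ite, prod_const, prod_const_one, mul_one]
  have h2 : ∑ r : X → Fin M, 2 ^ (univ.filter (fun c => r c ∈ B c)).card =
      ∏ c, (M + (B c).card) := by
    calc ∑ r : X → Fin M, 2 ^ (univ.filter (fun c => r c ∈ B c)).card
        = ∑ r : X → Fin M, ∏ c, (if r c ∈ B c then 2 else 1) := sum_congr rfl fun r _ => h1 r
      _ = ∏ c, ∑ y : Fin M, (if y ∈ B c then 2 else 1) := by
        rw [prod_univ_sum, Fintype.piFinset_univ]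
      _ = ∏ c, (M + (B c).card) := by
        refine prod_congr rfl fun c _ => ?_
        have : ∀ y : Fin M, (if y ∈ B c then 2 else 1) = 1 + (if y ∈ B c then 1 else 0) := by
          intro y; split_ifs <;> rfl
        simp only [this, sum_add_distrib, sum_const, card_univ, Fintype.card_fin, smul_eq_mul,
          mul_one, sum_ite_mem, univ_inter]
  rw [h2]
  have hM' : (0 : ℝ) < M := by exact_mod_cast hM
  have h3 : ((∏ c, (M + (B c).card) : ℕ) : ℝ) ≤ ((M ^ Fintype.card X * 3 ^ q : ℕ) : ℝ) := by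
    push_cast
    calc ∏ c, ((M : ℝ) + (B c).card) = ∏ c, ((M : ℝ) * (1 + (B c).card / M)) := by
          refine prod_congr rfl fun c _ => ?_
          field_simp
      _ = (M : ℝ) ^ Fintype.card X * ∏ c, (1 + ((B c).card : ℝ) / M) := by
          rw [prod_mul_distrib, prod_const, card_univ]
      _ ≤ (M : ℝ) ^ Fintype.card X * Real.exp (∑ c, ((B c).card : ℝ) / M) := by
          refine mul_le_mul_of_nonneg_left ?_ (by positivity)
          rw [Real.exp_sum]
          refine prod_le_prod (fun c _ => by positivity) fun c _ => ?_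
          rw [add_comm]
          exact Real.add_one_le_exp _
      _ ≤ (M : ℝ) ^ Fintype.card X * Real.exp q := by
          refine mul_le_mul_of_nonneg_left (Real.exp_le_exp.2 ?_) (by positivity)
          rw [← sum_div, div_le_iff₀ hM']
          exact_mod_cast hq
      _ ≤ (M : ℝ) ^ Fintype.card X * 3 ^ q := by
          refine mul_le_mul_of_nonneg_left ?_ (by positivity)
          have : Real.exp q = Real.exp 1 ^ q := by rw [← Real.exp_nat_mul, mul_one]
          rw [this]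
          exact pow_le_pow_left₀ (Real.exp_pos 1).le (by have := Real.exp_one_lt_d9; linarith) q
  exact_mod_cast h3

theorem exists_good {X ι : Type*} [Fintype X] [DecidableEq X] [Fintype ι] (M : ℕ) (hM : 0 < M)
    (B : ι → X → Finset (Fin M)) (q L : ℕ) (hq : ∀ i, ∑ c, (B i c).card ≤ q * M)
    (hL : Fintype.card ι * 3 ^ q < 2 ^ L) :
    ∃ r : X → Fin M, ∀ i, (univ.filter (fun c => r c ∈ B i c)).card < L := by
  by_contra hcon
  push Not at hcon
  have h1 : ∑ _r : X → Fin M, 2 ^ L ≤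
      ∑ r : X → Fin M, ∑ i, 2 ^ (univ.filter (fun c => r c ∈ B i c)).card := by
    refine sum_le_sum fun r _ => ?_
    obtain ⟨i, hi⟩ := hcon r
    refine (Nat.pow_le_pow_right (by norm_num) hi).trans ?_
    exact single_le_sum (f := fun i => 2 ^ (univ.filter (fun c => r c ∈ B i c)).card)
      (fun _ _ => Nat.zero_le _) (mem_univ i)
  rw [sum_comm] at h1
  have h2 := h1.trans (sum_le_sum fun i _ => moment M hM (B i) q (hq i))
  rw [sum_const, sum_const, card_univ, card_univ, Fintype.card_fun, Fintype.card_fin, smul_eq_mul,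
    smul_eq_mul] at h2
  have h3 : 0 < M ^ Fintype.card X := pow_pos hM _
  have h4 : M ^ Fintype.card X * (Fintype.card ι * 3 ^ q) < M ^ Fintype.card X * 2 ^ L :=
    Nat.mul_lt_mul_of_pos_left hL h3
  have h5 : Fintype.card ι * (M ^ Fintype.card X * 3 ^ q) =
    M ^ Fintype.card X * (Fintype.card ι * 3 ^ q) := by ring
  omega

/-- the discrete tubes -/
def BB (k M : ℕ) (i : Fin (k + 1) × (Fin (k + 1) → Fin M) × (Fin (k + 1) → Fin (2 * M + 1)))
    (c : Fin k → Fin M) : Finset (Fin M) :=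
  univ.filter (fun e => ∀ j, |(M : ℤ) * (((Fin.cons e c : Fin (k + 1) → Fin M) j : ℤ) - (i.2.1 j : ℤ))
    - ((i.2.2 j : ℤ) - M) * (((Fin.cons e c : Fin (k + 1) → Fin M) i.1 : ℤ) - (i.2.1 i.1 : ℤ))|
      ≤ 9 * M)

theorem BB_card (k M : ℕ) (hM : 0 < M)
    (i : Fin (k + 1) × (Fin (k + 1) → Fin M) × (Fin (k + 1) → Fin (2 * M + 1))) :
    ∑ c, (BB k M i c).card ≤ 19 ^ (k + 1) * M := by
  rw [← card_sigma]
  have h1 : (Finset.univ : Finset (Fin M × (Fin (k + 1) → Fin 19))).card = 19 ^ (k + 1) * M := by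
    rw [card_univ, Fintype.card_prod, Fintype.card_fun, Fintype.card_fin, Fintype.card_fin,
      Fintype.card_fin, mul_comm]
  rw [← h1]
  refine card_le_card_of_injOn (fun s => ((Fin.cons s.2 s.1 : Fin (k + 1) → Fin M) i.1,
    fun j => Fin.ofNat 19 ((Fin.cons s.2 s.1 : Fin (k + 1) → Fin M) j : ℕ)))
    (fun _ _ => mem_coe.2 (mem_univ _)) ?_
  rintro ⟨c, e⟩ h ⟨c', e'⟩ h' heq
  simp only [mem_coe, mem_sigma, mem_univ, true_and, BB, mem_filter] at h h'
  simp only [Prod.mk.injEq] at heq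
  obtain ⟨h2, h3⟩ := heq
  have h4 : (Fin.cons e c : Fin (k + 1) → Fin M) = Fin.cons e' c' := by
    funext j
    have h5 := congrFun h3 j
    have h6 : ((Fin.cons e c : Fin (k + 1) → Fin M) j : ℕ) % 19 =
        ((Fin.cons e' c' : Fin (k + 1) → Fin M) j : ℕ) % 19 := by
      have := congrArg Fin.val h5
      simpa [Fin.ofNat] using this
    have h7 := h j
    have h8 := h' j
    rw [← h2] at h8
    generalize (Fin.cons e c : Fin (k + 1) → Fin M) j = z at *
    generalize (Fin.cons e' c' : Fin (k + 1) → Fin M) j = z' at *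
    generalize ((i.2.2 j : ℤ) - M) * (((Fin.cons e c : Fin (k + 1) → Fin M) i.1 : ℤ) -
      (i.2.1 i.1 : ℤ)) = Q at *
    generalize ((i.2.1 j : ℕ) : ℤ) = y at *
    rw [abs_le] at h7 h8
    have hM' : (0 : ℤ) < M := by exact_mod_cast hM
    have h9 : (z : ℤ) - z' ≤ 18 := by nlinarith
    have h10 : (z' : ℤ) - z ≤ 18 := by nlinarith
    apply Fin.ext
    omega
  have h5 : e = e' := by have := congrFun h4 0; simpa using this
  have h6 : c = c' := by
    funext j
    have := congrFun h4 j.succ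
    simpa using this
  subst h5; subst h6; rfl

theorem pattern (k M L : ℕ) (hM : 0 < M)
    (hL : ((k + 1) * (M ^ (k + 1) * (2 * M + 1) ^ (k + 1))) * 3 ^ (19 ^ (k + 1)) < 2 ^ L) :
    ∃ r : (Fin k → Fin M) → Fin M, ∀ p v : Fin (k + 1) → ℝ, v ≠ 0 →
      ∀ S : Finset (Fin k → Fin M), (∀ c ∈ S, ∃ t : ℝ, ∀ j,
        |(((Fin.cons (r c) c : Fin (k + 1) → Fin M) j : ℕ) : ℝ) - p j - t * v j| ≤ 2) →
      S.card ≤ L := by
  classical
  obtain ⟨r, hr⟩ := exists_good M hM (BB k M) (19 ^ (k + 1)) L (BB_card k M hM) (by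
    rw [Fintype.card_prod, Fintype.card_prod, Fintype.card_fun, Fintype.card_fun, Fintype.card_fin,
      Fintype.card_fin, Fintype.card_fin]
    exact hL)
  refine ⟨r, fun p v hv S hS => ?_⟩
  rcases S.eq_empty_or_nonempty with rfl | ⟨c0, hc0⟩
  · simp
  obtain ⟨κ, -, hκ⟩ := exists_max_image univ (fun j => |v j|) univ_nonempty
  have hvk : v κ ≠ 0 := by
    intro h0
    apply hv
    funext j
    have := hκ j (mem_univ j)
    rw [h0, abs_zero] at this
    exact abs_eq_zero.1 (le_antisymm this (abs_nonneg _))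
  have hu : ∀ j, |v j / v κ| ≤ 1 := fun j => by
    rw [abs_div, div_le_one (abs_pos.2 hvk)]
    exact hκ j (mem_univ j)
  have hM' : (0 : ℝ) < M := by exact_mod_cast hM
  have hfl : ∀ j, ∃ b : Fin (2 * M + 1), ((b : ℕ) : ℤ) - M = ⌊(M : ℝ) * (v j / v κ)⌋ := by
    intro j
    have h1 := abs_le.1 (hu j)
    have h2 : -(M : ℤ) ≤ ⌊(M : ℝ) * (v j / v κ)⌋ := by
      rw [Int.le_floor]; push_cast; nlinarith [h1.1]
    have h3 : ⌊(M : ℝ) * (v j / v κ)⌋ ≤ (M : ℤ) := by
      have h4 : ⌊(M : ℝ) * (v j / v κ)⌋ < (M : ℤ) + 1 := by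
        rw [Int.floor_lt]; push_cast; nlinarith [h1.2]
      omega
    refine ⟨⟨(⌊(M : ℝ) * (v j / v κ)⌋ + M).toNat, by omega⟩, ?_⟩
    show (((⌊(M : ℝ) * (v j / v κ)⌋ + M).toNat : ℕ) : ℤ) - M = _
    omega
  choose b hb using hfl
  refine le_trans (card_le_card fun c hc => ?_)
    (hr (κ, (Fin.cons (r c0) c0 : Fin (k + 1) → Fin M), b)).le
  rw [mem_filter]
  refine ⟨mem_univ _, ?_⟩
  rw [BB, mem_filter]
  refine ⟨mem_univ _, fun j => ?_⟩
  obtain ⟨t, ht⟩ := hS c hc
  obtain ⟨t0, ht0⟩ := hS c0 hc0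
  simp only []
  have a1 := ht j
  have a2 := ht κ
  have a3 := ht0 j
  have a4 := ht0 κ
  have hz : (((Fin.cons (r c) c : Fin (k + 1) → Fin M) κ : ℕ) : ℝ) < M := by
    exact_mod_cast ((Fin.cons (r c) c : Fin (k + 1) → Fin M) κ).2
  have hy : (((Fin.cons (r c0) c0 : Fin (k + 1) → Fin M) κ : ℕ) : ℝ) < M := by
    exact_mod_cast ((Fin.cons (r c0) c0 : Fin (k + 1) → Fin M) κ).2
  have hz0 : (0 : ℝ) ≤ (((Fin.cons (r c) c : Fin (k + 1) → Fin M) κ : ℕ) : ℝ) := Nat.cast_nonneg _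
  have hy0 : (0 : ℝ) ≤ (((Fin.cons (r c0) c0 : Fin (k + 1) → Fin M) κ : ℕ) : ℝ) := Nat.cast_nonneg _
  rw [← Int.cast_le (R := ℝ)]
  push_cast
  rw [show (((b j : ℕ) : ℝ)) - (M : ℝ) = ((⌊(M : ℝ) * (v j / v κ)⌋ : ℤ) : ℝ) by
    rw [← hb j]; push_cast; ring]
  have f1 := Int.floor_le ((M : ℝ) * (v j / v κ))
  have f2 := Int.lt_floor_add_one ((M : ℝ) * (v j / v κ))
  have hu' := hu j
  have hvj : v j = (v j / v κ) * v κ := by field_simp
  generalize ((⌊(M : ℝ) * (v j / v κ)⌋ : ℤ) : ℝ) = β at *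
  generalize v j / v κ = u at *
  generalize (((Fin.cons (r c) c : Fin (k + 1) → Fin M) κ : ℕ) : ℝ) = zk at *
  generalize (((Fin.cons (r c0) c0 : Fin (k + 1) → Fin M) κ : ℕ) : ℝ) = yk at *
  generalize (((Fin.cons (r c) c : Fin (k + 1) → Fin M) j : ℕ) : ℝ) = zj at *
  generalize (((Fin.cons (r c0) c0 : Fin (k + 1) → Fin M) j : ℕ) : ℝ) = yj at *
  rw [hvj] at a1 a3
  generalize v κ = w at *
  -- main estimate
  have e1 : |(zj - yj) - u * (zk - yk)| ≤ 8 := by
    have : (zj - yj) - u * (zk - yk) = (zj - p j - t * (u * w)) - (yj - p j - t0 * (u * w)) -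
        u * ((zk - p κ - t * w) - (yk - p κ - t0 * w)) := by ring
    rw [this]
    have b1 : |u * ((zk - p κ - t * w) - (yk - p κ - t0 * w))| ≤ 4 := by
      rw [abs_mul]
      have : |(zk - p κ - t * w) - (yk - p κ - t0 * w)| ≤ 4 := (abs_sub _ _).trans (by linarith)
      calc |u| * |(zk - p κ - t * w) - (yk - p κ - t0 * w)| ≤ 1 * 4 :=
            mul_le_mul hu' this (abs_nonneg _) (by norm_num)
        _ = 4 := by norm_num
    have b2 : |(zj - p j - t * (u * w)) - (yj - p j - t0 * (u * w))| ≤ 4 :=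
      (abs_sub _ _).trans (by linarith)
    exact (abs_sub _ _).trans (by linarith)
  have e2 : |((M : ℝ) * u - β) * (zk - yk)| ≤ M := by
    rw [abs_mul]
    have c1 : |(M : ℝ) * u - β| ≤ 1 := abs_le.2 ⟨by linarith, by linarith⟩
    have c2 : |zk - yk| ≤ M := abs_le.2 ⟨by linarith, by linarith⟩
    calc |(M : ℝ) * u - β| * |zk - yk| ≤ 1 * M := mul_le_mul c1 c2 (abs_nonneg _) (by norm_num)
      _ = M := one_mul _
  have e3 : (M : ℝ) * (zj - yj) - β * (zk - yk) =
      (M : ℝ) * ((zj - yj) - u * (zk - yk)) + ((M : ℝ) * u - β) * (zk - yk) := by ring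
  rw [e3]
  refine (abs_add_le _ _).trans ?_
  rw [abs_mul, abs_of_pos hM']
  nlinarith

end Pool.Agent.R813.TB
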