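import Mathlib
import Pool.Agent.R813.TB.Pattern

set_option autoImplicit false

/-! Heights of the graph. -/

namespace Pool.Agent.R813.TB

open Finset

/-- `P n = 2^1 * 2^2 * ... * 2^n` -/
def P : ℕ → ℕ
  | 0 => 1
  | n + 1 => P n * 2 ^ (n + 1)

theorem P_pos (n : ℕ) : 0 < P n := by
  induction n with
  | zero => exact Nat.one_pos
  | succ n ih => exact Nat.mul_pos ih (by positivity)

theorem P_pos' (n : ℕ) : (0 : ℝ) < P n := by exact_mod_cast P_pos n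

theorem P_dvd (n m : ℕ) : ∃ W : ℕ, 0 < W ∧ P (n + m) = P n * W := by
  induction m with
  | zero => exact ⟨1, Nat.one_pos, by simp⟩
  | succ m ih =>
    obtain ⟨W, hW, h⟩ := ih
    refine ⟨W * 2 ^ (n + m + 1), by positivity, ?_⟩
    show P (n + m) * 2 ^ (n + m + 1) = _
    rw [h]; ring

theorem P_ge (n : ℕ) : n + 1 ≤ P n := by
  induction n with
  | zero => exact le_rfl
  | succ n ih =>
    show n + 1 + 1 ≤ P n * 2 ^ (n + 1)
    have : 2 ≤ 2 ^ (n + 1) := by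
      calc 2 = 2 ^ 1 := by norm_num
        _ ≤ 2 ^ (n + 1) := Nat.pow_le_pow_right (by norm_num) (by omega)
    nlinarith

/-- the constant -/
def A (k : ℕ) : ℕ := 5 * (k + 1) + 2 * 19 ^ (k + 1) + 1

theorem A_spec (k n : ℕ) : ((k + 1) * ((2 ^ (n + 1)) ^ (k + 1) * (2 * 2 ^ (n + 1) + 1) ^ (k + 1))) *
    3 ^ (19 ^ (k + 1)) < 2 ^ (A k * (n + 1)) := by
  have h1 : k + 1 ≤ 2 ^ k := Nat.lt_two_pow_self
  have h2 : 2 * 2 ^ (n + 1) + 1 ≤ 2 ^ (n + 3) := by
    have : 1 ≤ 2 ^ (n + 1) := Nat.one_le_two_pow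
    have e : 2 ^ (n + 3) = 4 * 2 ^ (n + 1) := by ring
    omega
  have h3 : (3 : ℕ) ^ (19 ^ (k + 1)) ≤ 2 ^ (2 * 19 ^ (k + 1)) := by
    rw [pow_mul]; exact Nat.pow_le_pow_left (by norm_num) _
  calc ((k + 1) * ((2 ^ (n + 1)) ^ (k + 1) * (2 * 2 ^ (n + 1) + 1) ^ (k + 1))) * 3 ^ (19 ^ (k + 1))
      ≤ (2 ^ k * ((2 ^ (n + 1)) ^ (k + 1) * (2 ^ (n + 3)) ^ (k + 1))) * 2 ^ (2 * 19 ^ (k + 1)) := by
        gcongr
    _ = 2 ^ (k + ((n + 1) * (k + 1) + (n + 3) * (k + 1)) + 2 * 19 ^ (k + 1)) := by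
        rw [← pow_mul, ← pow_mul, ← pow_add, ← pow_add, ← pow_add]
    _ < 2 ^ (A k * (n + 1)) := by
        refine Nat.pow_lt_pow_right (by norm_num) ?_
        unfold A
        nlinarith [Nat.zero_le (19 ^ (k + 1) * n), Nat.zero_le (k * n)]

theorem exists_R (k : ℕ) : ∃ R : ℕ → (Fin k → ℕ) → ℕ, (∀ n c, R n c < 2 ^ (n + 1)) ∧
    ∀ n, ∀ p v : Fin (k + 1) → ℝ, v ≠ 0 → ∀ S : Finset (Fin k → ℕ),
      (∀ c ∈ S, (∀ j, c j < 2 ^ (n + 1)) ∧ ∃ t : ℝ, ∀ j,
        |(((Fin.cons (R n c) c : Fin (k + 1) → ℕ) j : ℕ) : ℝ) - p j - t * v j| ≤ 2) →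
      S.card ≤ A k * (n + 1) := by
  classical
  have h := fun n => pattern k (2 ^ (n + 1)) (A k * (n + 1)) (by positivity) (A_spec k n)
  choose r hr using h
  refine ⟨fun n c => if h : ∀ j, c j < 2 ^ (n + 1) then (r n (fun j => ⟨c j, h j⟩) : ℕ) else 0,
    ?_, ?_⟩
  · intro n c
    simp only []
    split_ifs with h
    · exact (r n _).2
    · positivity
  · intro n p v hv S hS
    have h0 : 0 < 2 ^ (n + 1) := by positivity
    set φ : (Fin k → ℕ) → (Fin k → Fin (2 ^ (n + 1))) := fun c j => ⟨c j % 2 ^ (n + 1),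
      Nat.mod_lt _ h0⟩ with hφ
    have hφ2 : ∀ c, (∀ j, c j < 2 ^ (n + 1)) → ∀ j, ((φ c j : ℕ)) = c j := fun c hc j =>
      Nat.mod_eq_of_lt (hc j)
    have hinj : Set.InjOn φ S := by
      intro c hc c' hc' h
      funext j
      rw [← hφ2 c (hS c hc).1 j, ← hφ2 c' (hS c' hc').1 j, h]
    rw [← card_image_of_injOn hinj]
    apply hr n p v hv
    intro d hd
    obtain ⟨c, hc, rfl⟩ := mem_image.1 hd
    obtain ⟨h1, t, ht⟩ := hS c hc
    refine ⟨t, fun j => ?_⟩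
    have h2 := ht j
    simp only [dif_pos h1] at h2
    have e : (fun j => (⟨c j, h1 j⟩ : Fin (2 ^ (n + 1)))) = φ c := by
      funext j
      apply Fin.ext
      exact (hφ2 c h1 j).symm
    rw [e] at h2
    convert h2 using 5
    refine Fin.cases ?_ (fun j => ?_) j
    · simp
    · simp only [Fin.cons_succ]
      exact hφ2 c h1 j

variable {k : ℕ} (R : ℕ → (Fin k → ℕ) → ℕ)

/-- the height of a cell -/
def g : ℕ → (Fin k → ℕ) → ℕ
  | 0, _ => 0
  | n + 1, a => 2 ^ (n + 1) * g n (fun j => a j / 2 ^ (n + 1)) + R n (fun j => a j % 2 ^ (n + 1))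

theorem g_lt (hR : ∀ n c, R n c < 2 ^ (n + 1)) (n : ℕ) (a : Fin k → ℕ) : g R n a < P n := by
  induction n generalizing a with
  | zero => exact Nat.one_pos
  | succ n ih =>
    have h1 := ih (fun j => a j / 2 ^ (n + 1))
    have h2 := hR n (fun j => a j % 2 ^ (n + 1))
    show 2 ^ (n + 1) * g R n _ + R n _ < P n * 2 ^ (n + 1)
    have h3 : 2 ^ (n + 1) * (g R n (fun j => a j / 2 ^ (n + 1)) + 1) ≤ 2 ^ (n + 1) * P n :=
      Nat.mul_le_mul_left _ h1
    nlinarith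

/-- the cell of a point -/
noncomputable def an (n : ℕ) (x : Fin k → ℝ) (j : Fin k) : ℕ := ⌊(P n : ℝ) * x j⌋₊

theorem an_div (n m W : ℕ) (hW : 0 < W) (h : P m = P n * W) (x : Fin k → ℝ) (j : Fin k) :
    an m x j / W = an n x j := by
  unfold an
  rw [← Nat.floor_div_natCast, h]
  congr 1
  push_cast
  have : (W : ℝ) ≠ 0 := by positivity
  field_simp

/-- the approximate height -/
noncomputable def G (n : ℕ) (x : Fin k → ℝ) : ℝ := (g R n (an n x) : ℝ) / P n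

theorem G_succ (n : ℕ) (x : Fin k → ℝ) : G R (n + 1) x = G R n x +
    (R n (fun j => an (n + 1) x j % 2 ^ (n + 1)) : ℝ) / P (n + 1) := by
  unfold G
  have h1 : g R (n + 1) (an (n + 1) x) = 2 ^ (n + 1) * g R n (an n x) +
      R n (fun j => an (n + 1) x j % 2 ^ (n + 1)) := by
    show 2 ^ (n + 1) * g R n (fun j => an (n + 1) x j / 2 ^ (n + 1)) + _ = _
    congr 3
    funext j
    exact an_div n (n + 1) (2 ^ (n + 1)) (by positivity) rfl x j
  rw [h1]
  have h2 : ((P (n + 1) : ℕ) : ℝ) = P n * 2 ^ (n + 1) := by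
    show ((P n * 2 ^ (n + 1) : ℕ) : ℝ) = _
    push_cast; ring
  rw [h2]
  have h3 := P_pos' n
  push_cast
  field_simp

theorem G_mono (x : Fin k → ℝ) : Monotone (fun n => G R n x) := by
  refine monotone_nat_of_le_succ fun n => ?_
  rw [G_succ]
  have := P_pos' (n + 1)
  have : (0 : ℝ) ≤ (R n (fun j => an (n + 1) x j % 2 ^ (n + 1)) : ℝ) / P (n + 1) := by positivity
  linarith

theorem G_anti (hR : ∀ n c, R n c < 2 ^ (n + 1)) (x : Fin k → ℝ) :
    Antitone (fun n => G R n x + 1 / P n) := by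
  refine antitone_nat_of_succ_le fun n => ?_
  rw [G_succ]
  have h0 := P_pos' n
  have h1 := P_pos' (n + 1)
  have h2 : ((P (n + 1) : ℕ) : ℝ) = P n * 2 ^ (n + 1) := by
    show ((P n * 2 ^ (n + 1) : ℕ) : ℝ) = _
    push_cast; ring
  have h3 : (R n (fun j => an (n + 1) x j % 2 ^ (n + 1)) : ℝ) + 1 ≤ 2 ^ (n + 1) := by
    exact_mod_cast hR n (fun j => an (n + 1) x j % 2 ^ (n + 1))
  have h4 : (1 : ℝ) / P n = 2 ^ (n + 1) / P (n + 1) := by
    rw [h2]; field_simp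
  rw [h4, add_assoc, ← add_div]
  gcongr

/-- the height -/
noncomputable def F (x : Fin k → ℝ) : ℝ := ⨆ n, G R n x

theorem G_le_add (hR : ∀ n c, R n c < 2 ^ (n + 1)) (x : Fin k → ℝ) (m n : ℕ) :
    G R m x ≤ G R n x + 1 / P n := by
  have hp : ∀ i, (0 : ℝ) < 1 / P i := fun i => by have := P_pos' i; positivity
  rcases le_total m n with h | h
  · have := G_mono R x h
    have := hp n
    simp only [] at *
    linarith
  · have h1 := G_anti R hR x h
    have := hp m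
    simp only [] at *
    linarith

theorem F_bounds (hR : ∀ n c, R n c < 2 ^ (n + 1)) (x : Fin k → ℝ) (n : ℕ) :
    G R n x ≤ F R x ∧ F R x ≤ G R n x + 1 / P n :=
  ⟨le_ciSup (f := fun n => G R n x) ⟨G R n x + 1 / P n, by
    rintro _ ⟨m, rfl⟩; exact G_le_add R hR x m n⟩ n, ciSup_le fun m => G_le_add R hR x m n⟩

end Pool.Agent.R813.TB
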