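import Mathlib
import Pool.Agent.R813.TB.Tree

set_option autoImplicit false

/-! Cells of the graph, their measure, and the cells which meet a tube. -/

namespace Pool.Agent.R813.TB

open Finset MeasureTheory Measure Filter Topology
open scoped ENNReal

variable {k : ℕ} (R : ℕ → (Fin k → ℕ) → ℕ)

/-- a piece of the graph -/
def piece (n : ℕ) (a : Fin k → ℕ) : Set (EuclideanSpace ℝ (Fin (k + 1))) :=
  {y | (∀ j : Fin k, 0 ≤ y j.succ ∧ y j.succ < 1) ∧ y 0 = F R (fun j => y j.succ) ∧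
    ∀ j, an n (fun j => y j.succ) j = a j}

/-- its closure -/
def cell (n : ℕ) (a : Fin k → ℕ) : Set (EuclideanSpace ℝ (Fin (k + 1))) := closure (piece R n a)

/-- the corner of the cube of a cell -/
def cor (n : ℕ) (a : Fin k → ℕ) : Fin (k + 1) → ℕ := Fin.cons (g R n a) a

def Q (n : ℕ) (a : Fin k → ℕ) : Set (EuclideanSpace ℝ (Fin (k + 1))) :=
  {y | ∀ j : Fin (k + 1), (cor R n a j : ℝ) ≤ P n * y j ∧ P n * y j ≤ (cor R n a j : ℝ) + 1}

theorem isClosed_Q (n : ℕ) (a : Fin k → ℕ) : IsClosed (Q R n a) := by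
  have h1 : Q R n a = ⋂ j, ({y | (cor R n a j : ℝ) ≤ P n * y j} ∩
      {y | P n * y j ≤ (cor R n a j : ℝ) + 1}) := by
    ext y; simp [Q]
  rw [h1]
  refine isClosed_iInter fun j => ?_
  have hc : Continuous (fun y : EuclideanSpace ℝ (Fin (k + 1)) => (P n : ℝ) * y j) := by fun_prop
  exact (isClosed_le continuous_const hc).inter (isClosed_le hc continuous_const)

theorem piece_sub_Q (hR : ∀ n c, R n c < 2 ^ (n + 1)) (n : ℕ) (a : Fin k → ℕ) :
    piece R n a ⊆ Q R n a := by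
  rintro y ⟨h1, h2, h3⟩ j
  have hP := P_pos' n
  refine Fin.cases ?_ (fun j => ?_) j
  · have h4 := F_bounds R hR (fun j => y j.succ) n
    have h5 : an n (fun j => y j.succ) = a := funext h3
    rw [← h2, G, h5] at h4
    simp only [cor, Fin.cons_zero]
    obtain ⟨h6, h7⟩ := h4
    rw [div_le_iff₀ hP] at h6
    rw [← add_div, le_div_iff₀ hP] at h7
    constructor <;> linarith
  · simp only [cor, Fin.cons_succ]
    rw [← h3 j]
    unfold an
    exact ⟨Nat.floor_le (mul_nonneg hP.le (h1 j).1), (Nat.lt_floor_add_one _).le⟩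

theorem cell_sub_Q (hR : ∀ n c, R n c < 2 ^ (n + 1)) (n : ℕ) (a : Fin k → ℕ) :
    cell R n a ⊆ Q R n a :=
  closure_minimal (piece_sub_Q R hR n a) (isClosed_Q R n a)

theorem cell_parent (n : ℕ) (a : Fin k → ℕ) :
    cell R (n + 1) a ⊆ cell R n (fun j => a j / 2 ^ (n + 1)) := by
  refine closure_mono ?_
  rintro y ⟨h1, h2, h3⟩
  refine ⟨h1, h2, fun j => ?_⟩
  show _ = a j / 2 ^ (n + 1)
  rw [← h3 j]
  exact (an_div n (n + 1) (2 ^ (n + 1)) (by positivity) rfl _ j).symm

theorem cell_cover (n m W : ℕ) (hW : 0 < W) (h : P m = P n * W) (a : Fin k → ℕ) :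
    cell R n a ⊆ ⋃ e : Fin k → Fin W, cell R m (fun j => W * a j + e j) := by
  have h1 : piece R n a ⊆ ⋃ e : Fin k → Fin W, piece R m (fun j => W * a j + e j) := by
    rintro y ⟨h1, h2, h3⟩
    rw [Set.mem_iUnion]
    refine ⟨fun j => ⟨an m (fun j => y j.succ) j % W, Nat.mod_lt _ hW⟩, h1, h2, fun j => ?_⟩
    show _ = W * a j + an m (fun j => y j.succ) j % W
    rw [← h3 j, ← an_div n m W hW h]
    exact (Nat.div_add_mod _ _).symm
  refine (closure_mono h1).trans ?_
  rw [closure_iUnion_of_finite]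
  rfl

theorem ediam_Q (n : ℕ) (a : Fin k → ℕ) :
    Metric.ediam (Q R n a) ≤ ENNReal.ofReal ((k + 1) / P n) := by
  refine Metric.ediam_le fun y hy z hz => ?_
  rw [edist_dist]
  refine ENNReal.ofReal_le_ofReal ?_
  have hP := P_pos' n
  have h1 : ∀ j, dist (y j) (z j) ≤ 1 / P n := by
    intro j
    obtain ⟨a1, a2⟩ := hy j
    obtain ⟨b1, b2⟩ := hz j
    rw [Real.dist_eq, le_div_iff₀ hP, ← abs_of_pos hP, ← abs_mul, abs_le]
    constructor <;> nlinarith
  rw [EuclideanSpace.dist_eq]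
  refine Real.sqrt_le_iff.2 ⟨by positivity, ?_⟩
  calc ∑ i, dist (y i) (z i) ^ 2 ≤ ∑ _i : Fin (k + 1), (1 / (P n : ℝ)) ^ 2 :=
        sum_le_sum fun i _ => pow_le_pow_left₀ dist_nonneg (h1 i) 2
    _ = (k + 1) * (1 / (P n : ℝ)) ^ 2 := by
        rw [sum_const, card_univ, Fintype.card_fin, nsmul_eq_mul]; push_cast; ring
    _ ≤ (k + 1) * ((k + 1) * (1 / (P n : ℝ)) ^ 2) := by
        refine mul_le_mul_of_nonneg_left ?_ (by positivity)
        have : (0 : ℝ) ≤ (1 / (P n : ℝ)) ^ 2 := by positivity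
        nlinarith [Nat.cast_nonneg (α := ℝ) k]
    _ = ((k + 1) / P n) ^ 2 := by ring

theorem hausdorff_cell (hR : ∀ n c, R n c < 2 ^ (n + 1)) (n : ℕ) (a : Fin k → ℕ) :
    μH[(k : ℝ)] (cell R n a) ≤ ENNReal.ofReal (((k + 1) / P n) ^ k) := by
  choose W hW hP using fun m => P_dvd n m
  have hr : Tendsto (fun m => ENNReal.ofReal (((k : ℝ) + 1) / P (n + m))) atTop (𝓝 0) := by
    rw [← ENNReal.ofReal_zero]
    refine ENNReal.tendsto_ofReal (tendsto_const_nhds.div_atTop ?_)
    refine tendsto_atTop_mono (f := fun m : ℕ => (m : ℝ)) (fun m => ?_) tendsto_natCast_atTop_atTop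
    have := P_ge (n + m)
    exact_mod_cast (by omega : m ≤ P (n + m))
  refine (hausdorffMeasure_le_liminf_sum (ι := fun m => Fin k → Fin (W m)) (k : ℝ) (cell R n a)
    (fun m => ENNReal.ofReal (((k : ℝ) + 1) / P (n + m))) hr
    (fun m e => cell R (n + m) (fun j => W m * a j + e j)) ?_ ?_).trans ?_
  · exact Eventually.of_forall fun m e => (Metric.ediam_mono (cell_sub_Q R hR _ _)).trans
      (ediam_Q R _ _)
  · exact Eventually.of_forall fun m => cell_cover R n (n + m) (W m) (hW m) (hP m) a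
  · refine (liminf_le_liminf (v := fun _ => ENNReal.ofReal ((((k : ℝ) + 1) / P n) ^ k))
      (Eventually.of_forall fun m => ?_)).trans (liminf_const _).le
    calc ∑ e : Fin k → Fin (W m), Metric.ediam (cell R (n + m) (fun j => W m * a j + e j)) ^ (k : ℝ)
        ≤ ∑ _e : Fin k → Fin (W m), ENNReal.ofReal (((k : ℝ) + 1) / P (n + m)) ^ (k : ℝ) := by
          refine sum_le_sum fun e _ => ?_
          refine ENNReal.rpow_le_rpow ?_ (by positivity)
          exact (Metric.ediam_mono (cell_sub_Q R hR _ _)).trans (ediam_Q R _ _)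
      _ = ENNReal.ofReal ((((k : ℝ) + 1) / P n) ^ k) := by
          rw [sum_const, card_univ, Fintype.card_fun, Fintype.card_fin, Fintype.card_fin,
            ENNReal.rpow_natCast, nsmul_eq_mul, ← ENNReal.ofReal_pow (by positivity)]
          rw [← ENNReal.ofReal_natCast, ← ENNReal.ofReal_mul (by positivity)]
          congr 1
          rw [hP m]
          push_cast
          rw [← mul_pow]
          congr 1
          have h1 := P_pos' n
          have h2 : (0 : ℝ) < W m := by exact_mod_cast hW m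
          field_simp

/-- the tube -/
def tube (p v : EuclideanSpace ℝ (Fin (k + 1))) (w : ℝ) : Set (EuclideanSpace ℝ (Fin (k + 1))) :=
  {y | Metric.infDist y (Set.range fun t : ℝ => p + t • v) ≤ w / 2}

theorem tube_near {p v : EuclideanSpace ℝ (Fin (k + 1))} {w : ℝ} (hw : 0 < w)
    {y : EuclideanSpace ℝ (Fin (k + 1))} (hy : y ∈ tube p v w) :
    ∃ t : ℝ, ∀ j, |y j - p j - t * v j| ≤ w := by
  have h1 : Metric.infDist y (Set.range fun t : ℝ => p + t • v) < w :=
    lt_of_le_of_lt hy (by linarith)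
  obtain ⟨z, ⟨t, rfl⟩, hz⟩ := (Metric.infDist_lt_iff (Set.range_nonempty _)).1 h1
  refine ⟨t, fun j => ?_⟩
  have h2 := PiLp.norm_apply_le (y - (p + t • v)) j
  rw [← dist_eq_norm] at h2
  have h3 : ‖(y - (p + t • v)) j‖ = |y j - p j - t * v j| := by
    rw [Real.norm_eq_abs]
    congr 1
    simp
    ring
  rw [h3] at h2
  linarith

open Classical in
/-- the cells which meet the tube -/
noncomputable def HH (n : ℕ) (T : Set (EuclideanSpace ℝ (Fin (k + 1)))) : Finset (Fin k → ℕ) :=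
  (Fintype.piFinset (fun _ : Fin k => range (P n))).filter (fun a => (cell R n a ∩ T).Nonempty)

theorem HH_step (hR : ∀ n c, R n c < 2 ^ (n + 1))
    (hR2 : ∀ n, ∀ p v : Fin (k + 1) → ℝ, v ≠ 0 → ∀ S : Finset (Fin k → ℕ),
      (∀ c ∈ S, (∀ j, c j < 2 ^ (n + 1)) ∧ ∃ t : ℝ, ∀ j,
        |(((Fin.cons (R n c) c : Fin (k + 1) → ℕ) j : ℕ) : ℝ) - p j - t * v j| ≤ 2) →
      S.card ≤ A k * (n + 1))
    {p v : EuclideanSpace ℝ (Fin (k + 1))} (hv : v ≠ 0) {w : ℝ} (hw : 0 < w) (n : ℕ)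
    (hwn : w ≤ 1 / P (n + 1)) :
    (HH R (n + 1) (tube p v w)).card ≤ (A k * (n + 1)) * (HH R n (tube p v w)).card := by
  classical
  have h0 : 0 < 2 ^ (n + 1) := by positivity
  refine card_le_mul_card_image_of_maps_to (f := fun a j => a j / 2 ^ (n + 1)) ?_ _ ?_
  · intro a ha
    simp only [HH, mem_filter, Fintype.mem_piFinset, mem_range] at ha ⊢
    refine ⟨fun j => ?_, ha.2.mono (Set.inter_subset_inter_left _ (cell_parent R n a))⟩
    rw [Nat.div_lt_iff_lt_mul h0]
    exact ha.1 j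
  · intro b hb
    have hP := P_pos' (n + 1)
    have hinj : Set.InjOn (fun (a : Fin k → ℕ) j => a j % 2 ^ (n + 1))
        ((HH R (n + 1) (tube p v w)).filter (fun a => (fun j => a j / 2 ^ (n + 1)) = b)) := by
      intro a ha a' ha' h
      simp only [coe_filter, Set.mem_ofPred_eq] at ha ha'
      funext j
      have h1 := congrFun (ha.2.trans ha'.2.symm) j
      have h2 := congrFun h j
      simp only [] at h1 h2
      rw [← Nat.div_add_mod (a j) (2 ^ (n + 1)), h1, h2, Nat.div_add_mod]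
    rw [← card_image_of_injOn hinj]
    refine hR2 n (fun j => P (n + 1) * p j - 2 ^ (n + 1) * (cor R n b j : ℝ))
      (fun j => v j) (fun h => hv ?_) _ ?_
    · ext j; exact congrFun h j
    · intro c hc
      obtain ⟨a, ha, rfl⟩ := mem_image.1 hc
      rw [mem_filter] at ha
      obtain ⟨ha1, ha2⟩ := ha
      simp only [HH, mem_filter] at ha1
      obtain ⟨_, y, hy1, hy2⟩ := ha1
      refine ⟨fun j => Nat.mod_lt _ h0, ?_⟩
      obtain ⟨t, ht⟩ := tube_near hw hy2
      refine ⟨P (n + 1) * t, fun j => ?_⟩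
      have h1 := cell_sub_Q R hR _ _ hy1 j
      have h2 := ht j
      have h3 : (cor R (n + 1) a j : ℝ) = 2 ^ (n + 1) * (cor R n b j : ℝ) +
          (((Fin.cons (R n (fun j => a j % 2 ^ (n + 1))) (fun j => a j % 2 ^ (n + 1)) :
            Fin (k + 1) → ℕ) j : ℕ) : ℝ) := by
        rw [← ha2]
        unfold cor
        refine Fin.cases ?_ (fun j => ?_) j
        · simp only [Fin.cons_zero]
          show ((2 ^ (n + 1) * g R n (fun j => a j / 2 ^ (n + 1)) +
            R n (fun j => a j % 2 ^ (n + 1)) : ℕ) : ℝ) = _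
          push_cast; ring
        · simp only [Fin.cons_succ]
          have := Nat.div_add_mod (a j) (2 ^ (n + 1))
          exact_mod_cast this.symm
      have h4 : (((Fin.cons (R n (fun j => a j % 2 ^ (n + 1))) (fun j => a j % 2 ^ (n + 1)) :
            Fin (k + 1) → ℕ) j : ℕ) : ℝ) - (P (n + 1) * p j - 2 ^ (n + 1) * (cor R n b j : ℝ)) -
            P (n + 1) * t * v j = ((cor R (n + 1) a j : ℝ) - P (n + 1) * y j) +
              P (n + 1) * (y j - p j - t * v j) := by
        rw [h3]; ring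
      rw [h4]
      refine (abs_add_le _ _).trans ?_
      have h5 : |(cor R (n + 1) a j : ℝ) - P (n + 1) * y j| ≤ 1 := by
        rw [abs_le]; constructor <;> linarith [h1.1, h1.2]
      have h6 : |(P (n + 1) : ℝ) * (y j - p j - t * v j)| ≤ 1 := by
        rw [abs_mul, abs_of_pos hP]
        calc (P (n + 1) : ℝ) * |y j - p j - t * v j| ≤ P (n + 1) * (1 / P (n + 1)) :=
              mul_le_mul_of_nonneg_left (h2.trans hwn) hP.le
          _ = 1 := by field_simp
      linarith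

theorem P_mono : Monotone P := by
  refine monotone_nat_of_le_succ fun n => ?_
  show P n ≤ P n * 2 ^ (n + 1)
  exact Nat.le_mul_of_pos_right _ (by positivity)

theorem HH_card (hR : ∀ n c, R n c < 2 ^ (n + 1))
    (hR2 : ∀ n, ∀ p v : Fin (k + 1) → ℝ, v ≠ 0 → ∀ S : Finset (Fin k → ℕ),
      (∀ c ∈ S, (∀ j, c j < 2 ^ (n + 1)) ∧ ∃ t : ℝ, ∀ j,
        |(((Fin.cons (R n c) c : Fin (k + 1) → ℕ) j : ℕ) : ℝ) - p j - t * v j| ≤ 2) →
      S.card ≤ A k * (n + 1))
    {p v : EuclideanSpace ℝ (Fin (k + 1))} (hv : v ≠ 0) {w : ℝ} (hw : 0 < w) (n : ℕ)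
    (hwn : w ≤ 1 / P n) :
    (HH R n (tube p v w)).card ≤ ∏ i ∈ range n, (A k * (i + 1)) := by
  classical
  induction n with
  | zero =>
    refine (card_filter_le _ _).trans ?_
    rw [Fintype.card_piFinset]
    simp [P]
  | succ n ih =>
    refine (HH_step R hR hR2 hv hw n hwn).trans ?_
    rw [prod_range_succ, mul_comm]
    refine Nat.mul_le_mul_right _ (ih (hwn.trans ?_))
    have h1 := P_pos' n
    have h2 : (P n : ℝ) ≤ P (n + 1) := by exact_mod_cast P_mono (Nat.le_succ n)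
    exact one_div_le_one_div_of_le h1 h2

theorem tube_bound (hR : ∀ n c, R n c < 2 ^ (n + 1))
    (hR2 : ∀ n, ∀ p v : Fin (k + 1) → ℝ, v ≠ 0 → ∀ S : Finset (Fin k → ℕ),
      (∀ c ∈ S, (∀ j, c j < 2 ^ (n + 1)) ∧ ∃ t : ℝ, ∀ j,
        |(((Fin.cons (R n c) c : Fin (k + 1) → ℕ) j : ℕ) : ℝ) - p j - t * v j| ≤ 2) →
      S.card ≤ A k * (n + 1))
    {p v : EuclideanSpace ℝ (Fin (k + 1))} (hv : v ≠ 0) {w : ℝ} (hw : 0 < w) (n : ℕ)
    (hwn : w ≤ 1 / P n) :
    μH[(k : ℝ)] (cell R 0 0 ∩ tube p v w) ≤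
      ENNReal.ofReal ((∏ i ∈ range n, ((A k : ℝ) * (i + 1))) * (((k : ℝ) + 1) / P n) ^ k) := by
  classical
  have h1 : cell R 0 0 ∩ tube p v w ⊆ ⋃ a ∈ HH R n (tube p v w), cell R n a := by
    rintro y ⟨hy1, hy2⟩
    have h2 := cell_cover R 0 n (P n) (P_pos n) (by simp [P]) 0 hy1
    obtain ⟨e, he⟩ := Set.mem_iUnion.1 h2
    rw [Set.mem_iUnion₂]
    refine ⟨_, ?_, he⟩
    simp only [HH, mem_filter, Fintype.mem_piFinset, mem_range]
    refine ⟨fun j => ?_, y, he, hy2⟩
    simp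
  refine (measure_mono h1).trans ((measure_biUnion_finset_le _ _).trans ?_)
  refine (sum_le_sum fun a _ => hausdorff_cell R hR n a).trans ?_
  rw [sum_const, nsmul_eq_mul, ← ENNReal.ofReal_natCast, ← ENNReal.ofReal_mul (by positivity)]
  refine ENNReal.ofReal_le_ofReal (mul_le_mul_of_nonneg_right ?_ (by positivity))
  have := HH_card R hR hR2 (p := p) hv hw n hwn
  exact_mod_cast this

end Pool.Agent.R813.TB
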