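import Mathlib
import Pool.Agent.R813.TB.Cells

set_option autoImplicit false

/-! The set with all tube bounds. -/

namespace Pool.Agent.R813.TB

open Finset MeasureTheory Measure Filter Topology
open scoped ENNReal

theorem lower {k : ℕ} (R : ℕ → (Fin k → ℕ) → ℕ) : 1 ≤ μH[(k : ℝ)] (cell R 0 0) := by
  set f : EuclideanSpace ℝ (Fin (k + 1)) → (Fin k → ℝ) := fun y j => y j.succ with hf
  have hL : LipschitzWith 1 f := by
    refine LipschitzWith.mk_one fun y z => ?_
    refine (dist_pi_le_iff dist_nonneg).2 fun j => ?_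
    have := PiLp.norm_apply_le (y - z) j.succ
    rw [← dist_eq_norm] at this
    simpa [Real.dist_eq, hf] using this
  have h1 := hL.hausdorffMeasure_image_le (d := (k : ℝ)) (by positivity) (cell R 0 0)
  simp only [ENNReal.coe_one, ENNReal.one_rpow, one_mul] at h1
  refine le_trans ?_ h1
  have h2 : Set.pi Set.univ (fun _ : Fin k => Set.Ico (0 : ℝ) 1) ⊆ f '' (cell R 0 0) := by
    intro x hx
    refine ⟨WithLp.toLp 2 (Fin.cons (F R x) x : Fin (k + 1) → ℝ), subset_closure ?_, ?_⟩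
    · refine ⟨fun j => ?_, ?_, fun j => ?_⟩
      · have := hx j (Set.mem_univ j)
        simpa using this
      · simp
      · have := hx j (Set.mem_univ j)
        simp only [an, P, Fin.cons_succ, Nat.cast_one, one_mul, Pi.zero_apply]
        exact Nat.floor_eq_zero.2 this.2
    · funext j
      simp [hf]
  refine le_trans ?_ (measure_mono h2)
  have h3 : (μH[(k : ℝ)] : Measure (Fin k → ℝ)) = volume := by
    have := hausdorffMeasure_pi_real (ι := Fin k)
    rwa [Fintype.card_fin] at this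
  rw [h3, Real.volume_pi_Ico]
  simp

theorem upper_seq (k : ℕ) (s : ℝ) (hs : s < k) : ∃ C : ℝ, 0 ≤ C ∧ ∀ n,
    (∏ i ∈ range n, ((A k : ℝ) * (i + 1))) * (((k : ℝ) + 1) / P n) ^ k * (P (n + 1) : ℝ) ^ s ≤ C := by
  set u : ℕ → ℝ := fun n => (∏ i ∈ range n, ((A k : ℝ) * (i + 1))) * (((k : ℝ) + 1) / P n) ^ k *
    (P (n + 1) : ℝ) ^ s with hu
  have hA : (0 : ℝ) < A k := by unfold A; positivity
  have upos : ∀ n, 0 < u n := by
    intro n
    have h1 : 0 < ∏ i ∈ range n, ((A k : ℝ) * (i + 1)) := prod_pos fun i _ => by positivity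
    have h2 := P_pos' n
    have h3 := P_pos' (n + 1)
    simp only [hu]
    positivity
  have ratio : ∀ n, u (n + 1) / u n = (A k * 2 ^ s) * ((n + 1) * ((2 : ℝ) ^ (s - k)) ^ (n + 1)) := by
    intro n
    have h1 : 0 < ∏ i ∈ range n, ((A k : ℝ) * (i + 1)) := prod_pos fun i _ => by positivity
    have h2 := P_pos' n
    have h3 := P_pos' (n + 1)
    have e1 : ((P (n + 1) : ℕ) : ℝ) = P n * 2 ^ (n + 1) := by
      show ((P n * 2 ^ (n + 1) : ℕ) : ℝ) = _
      push_cast; ring
    have e2 : ((P (n + 1 + 1) : ℕ) : ℝ) = P (n + 1) * 2 ^ (n + 2) := by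
      show ((P (n + 1) * 2 ^ (n + 1 + 1) : ℕ) : ℝ) = _
      push_cast; ring
    have e3 : ((P (n + 1 + 1) : ℕ) : ℝ) ^ s = (P (n + 1) : ℝ) ^ s * ((2 : ℝ) ^ s) ^ (n + 2) := by
      rw [e2, Real.mul_rpow h3.le (by positivity)]
      congr 1
      rw [← Real.rpow_natCast, ← Real.rpow_natCast, ← Real.rpow_mul (by norm_num),
        ← Real.rpow_mul (by norm_num), mul_comm]
    have e4 : ((2 : ℝ) ^ (s - k)) ^ (n + 1) = ((2 : ℝ) ^ s) ^ (n + 1) / (2 ^ (n + 1)) ^ k := by
      rw [Real.rpow_sub (by norm_num), Real.rpow_natCast, div_pow]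
      congr 1
      rw [← pow_mul, ← pow_mul, mul_comm]
    rw [e4]
    simp only [hu]
    rw [prod_range_succ, e3, e1]
    have h4 : (0 : ℝ) < (P n * 2 ^ (n + 1) : ℝ) ^ s := by positivity
    have h5 : (0 : ℝ) < 2 ^ s := by positivity
    generalize (2 : ℝ) ^ s = b at *
    generalize (P n * 2 ^ (n + 1) : ℝ) ^ s = c at *
    generalize ∏ i ∈ range n, ((A k : ℝ) * (i + 1)) = d at *
    rw [div_pow, div_pow, mul_pow, pow_succ b (n + 1)]
    have h6 : (0 : ℝ) < (P n : ℝ) ^ k := by positivity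
    have h7 : (0 : ℝ) < ((k : ℝ) + 1) ^ k := by positivity
    generalize (P n : ℝ) ^ k = x at *
    generalize ((k : ℝ) + 1) ^ k = y at *
    have h8 : (0 : ℝ) < ((2 : ℝ) ^ (n + 1)) ^ k := by positivity
    generalize ((2 : ℝ) ^ (n + 1)) ^ k = z at *
    field_simp
  have hlt : (2 : ℝ) ^ (s - k) < 1 := Real.rpow_lt_one_of_one_lt_of_neg (by norm_num) (by linarith)
  have hlim : Tendsto (fun n => u (n + 1) / u n) atTop (𝓝 0) := by
    have h1 : Tendsto (fun n : ℕ => (n : ℝ) * ((2 : ℝ) ^ (s - k)) ^ n) atTop (𝓝 0) :=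
      tendsto_self_mul_const_pow_of_lt_one (by positivity) hlt
    have h2 := (tendsto_add_atTop_iff_nat 1).2 h1
    have h3 := h2.const_mul (A k * (2 : ℝ) ^ s)
    rw [mul_zero] at h3
    refine h3.congr fun n => ?_
    rw [ratio]
    push_cast
    rfl
  have hsum : Summable u := by
    refine summable_of_ratio_test_tendsto_lt_one (l := 0) zero_lt_one
      (Eventually.of_forall fun n => (upos n).ne') ?_
    refine hlim.congr fun n => ?_
    rw [Real.norm_of_nonneg (upos _).le, Real.norm_of_nonneg (upos _).le]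
  obtain ⟨C, hC⟩ := hsum.tendsto_atTop_zero.bddAbove_range
  refine ⟨C, (upos 0).le.trans (hC ⟨0, rfl⟩), fun n => hC ⟨n, rfl⟩⟩

theorem main (k : ℕ) : ∃ K : Set (EuclideanSpace ℝ (Fin (k + 1))), IsCompact K ∧
    0 < μH[(k : ℝ)] K ∧ μH[(k : ℝ)] K < ⊤ ∧ ∀ s : ℝ, s < k → ∃ C : ℝ,
      ∀ p v : EuclideanSpace ℝ (Fin (k + 1)), v ≠ 0 → ∀ w : ℝ, 0 < w → (0 ≤ s ∨ w ≤ 1) →
        μH[(k : ℝ)] (K ∩ {y | Metric.infDist y (Set.range fun t : ℝ => p + t • v) ≤ w / 2}) ≤
          ENNReal.ofReal (C * w ^ s) := by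
  obtain ⟨R, hR, hR2⟩ := exists_R k
  have hup : μH[(k : ℝ)] (cell R 0 0) ≤ ENNReal.ofReal (((k : ℝ) + 1) ^ k) := by
    have := hausdorff_cell R hR 0 0
    simpa [P] using this
  refine ⟨cell R 0 0, ?_, lt_of_lt_of_le zero_lt_one (lower R),
    lt_of_le_of_lt hup ENNReal.ofReal_lt_top, ?_⟩
  · refine Metric.isCompact_of_isClosed_isBounded isClosed_closure ?_
    rw [Metric.isBounded_iff_ediam_ne_top]
    exact ne_top_of_le_ne_top ENNReal.ofReal_ne_top
      ((Metric.ediam_mono (cell_sub_Q R hR 0 0)).trans (ediam_Q R 0 0))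
  · intro s hs
    obtain ⟨C, hC0, hC⟩ := upper_seq k s hs
    refine ⟨max C (((k : ℝ) + 1) ^ k), fun p v hv w hw hsw => ?_⟩
    have hws : (0 : ℝ) < w ^ s := Real.rpow_pos_of_pos hw s
    by_cases htriv : 1 ≤ w ^ s
    · refine (measure_mono Set.inter_subset_left).trans (hup.trans ?_)
      refine ENNReal.ofReal_le_ofReal ?_
      have : (0 : ℝ) ≤ ((k : ℝ) + 1) ^ k := by positivity
      calc ((k : ℝ) + 1) ^ k ≤ max C (((k : ℝ) + 1) ^ k) * 1 := by rw [mul_one]; exact le_max_right _ _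
        _ ≤ max C (((k : ℝ) + 1) ^ k) * w ^ s :=
          mul_le_mul_of_nonneg_left htriv (this.trans (le_max_right _ _))
    · have hs0 : 0 ≤ s := by
        rcases hsw with h | h
        · exact h
        · by_contra hneg
          exact htriv (Real.one_le_rpow_of_pos_of_le_one_of_nonpos hw h (not_le.1 hneg).le)
      have hw1 : w < 1 := by
        by_contra hge
        exact htriv (Real.one_le_rpow (not_lt.1 hge) hs0)
      -- the scale
      have hex : ∃ n, 1 / (P (n + 1) : ℝ) < w := by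
        obtain ⟨n, hn⟩ := exists_nat_gt (1 / w)
        refine ⟨n, ?_⟩
        have h1 := P_pos' (n + 1)
        rw [div_lt_iff₀ h1]
        rw [div_lt_iff₀ hw] at hn
        have h2 : (n : ℝ) ≤ P (n + 1) := by
          have := P_ge (n + 1)
          exact_mod_cast (by omega : n ≤ P (n + 1))
        nlinarith
      classical
      set n := Nat.find hex with hn
      have hn1 := Nat.find_spec hex
      rw [← hn] at hn1
      have hn2 : w ≤ 1 / P n := by
        rcases Nat.eq_zero_or_pos n with h0 | h0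
        · rw [h0]; simp only [P, Nat.cast_one, div_one]; exact hw1.le
        · have h1 := Nat.find_min hex (show n - 1 < n by omega)
          rw [not_lt, show n - 1 + 1 = n by omega] at h1
          exact h1
      refine (tube_bound R hR hR2 hv hw n hn2).trans (ENNReal.ofReal_le_ofReal ?_)
      have h1 := hC n
      have h2 := P_pos' (n + 1)
      have h3 : (0 : ℝ) < (P (n + 1) : ℝ) ^ s := by positivity
      have h4 : 1 ≤ (P (n + 1) : ℝ) ^ s * w ^ s := by
        rw [← Real.mul_rpow h2.le hw.le]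
        refine Real.one_le_rpow ?_ hs0
        rw [div_lt_iff₀ h2] at hn1
        linarith
      set D := (∏ i ∈ range n, ((A k : ℝ) * (i + 1))) * (((k : ℝ) + 1) / P n) ^ k with hD
      have hD0 : 0 ≤ D := by
        have := P_pos' n
        rw [hD]
        exact mul_nonneg (prod_nonneg fun i _ => by positivity) (by positivity)
      calc D = D * 1 := (mul_one D).symm
        _ ≤ D * ((P (n + 1) : ℝ) ^ s * w ^ s) := mul_le_mul_of_nonneg_left h4 hD0
        _ = (D * (P (n + 1) : ℝ) ^ s) * w ^ s := by ring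
        _ ≤ C * w ^ s := mul_le_mul_of_nonneg_right h1 hws.le
        _ ≤ _ := mul_le_mul_of_nonneg_right (le_max_left _ _) hws.le

end Pool.Agent.R813.TB
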